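import Pool.Agent.Lib.MP_7b9603_alIL.Map
import Pool.Agent.Lib.MP_7b9603_alCF.F2
import Pool.Agent.Lib.MP_7b9603_alEV.F2
import Pool.Agent.Lib.MP_7b9603_alLO.Conv
import Pool.Agent.Lib.MP_7b9603_alLO.GlueR
import Pool.Agent.Lib.MP_7b9603_alLO.FreeKer

/-!
# Group algebras of Artin groups: a class without zero divisors

The Artin group of a Coxeter matrix `M` is `SPH.ArtinGroup M`, the group presented by the
generators `s` and the braid relations `s t s ⋯ = t s t ⋯` (`m_{st}` factors on both sides) for all
`s`, `t` with `m_{st} ≠ ∞`; in Mathlib's Coxeter matrices `M s t = 0` encodes `m_{st} = ∞`.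
-/

namespace Pool.Agent.Results.MP_7b9603_al.BuiltMatrices

universe u v

/-- The restriction of a Coxeter matrix to a subset of the generators. -/
def restrict {S : Type u} (M : CoxeterMatrix S) (C : Set S) : CoxeterMatrix C where
  M := fun a b => M a b
  isSymm := by
    ext a b
    exact M.symmetric b a
  diagonal := fun a => M.diagonal a
  off_diagonal := fun a b h => M.off_diagonal a b (fun h' => h (Subtype.ext h'))

/-- The Coxeter matrix on the generators other than `s`. -/
def delete {S : Type u} (M : CoxeterMatrix S) (s : S) : CoxeterMatrix {x : S // x ≠ s} where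
  M := fun a b => M a b
  isSymm := by
    ext a b
    exact M.symmetric b a
  diagonal := fun a => M.diagonal a
  off_diagonal := fun a b h => M.off_diagonal a b (fun h' => h (Subtype.ext h'))

/-- The subgroup of the Artin group generated by a set of generators. -/
def parabolic {S : Type u} (M : CoxeterMatrix S) (T : Set S) : Subgroup (SPH.ArtinGroup M) :=
  Subgroup.closure (PresentedGroup.of '' T)

/-- `Built M`: the Coxeter matrix `M` on a finite set can be built in finitely many steps.
`chordal`: `M` is of FC type and its graph of finite labels is chordal.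
`convex`: the cosets of the subgroup of the Artin group generated by a subset `T` of the generators
have an invariant linear order and `M` restricted to `T` is built. (For empty `T` the first
condition says that the Artin group is left orderable.)
`map`: from `M'` to `M`, if there is a map `f` of the generators of `M` to those of `M'` which
preserves all finite labels (an infinite label may become finite, and `f` may identify generators
with infinite label).
`even`: adding a generator `s` such that all labels of `s` are even or infinite and, if `w`, `z` are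
adjacent (finite labels) to `s` and to each other and the label of `s`, `w` is not `2`, then `z`
commutes with `s` and with `w`.
`glue`: the generators are covered by two sets `T`, `T'`, all labels between `T ∖ T'` and `T' ∖ T`
are infinite, both restrictions are built, the Artin group of `T ∩ T'` is left orderable, and there
is a homomorphism from the Artin group of `M` to that of `T ∩ T'` which is the identity on the
generators in `T ∩ T'`. (The last two conditions hold if `T ∩ T'` has at most one element.)
`free`: there is a homomorphism from the Artin group of `M` to the Artin group of a built matrix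
whose kernel is a free group. -/
inductive Built : {S : Type u} → CoxeterMatrix S → Prop
  | chordal {S : Type u} [Finite S] [LinearOrder S] (M : CoxeterMatrix S)
      (horder : ∀ s t t' : S, t < s → t' < s → M t s ≠ 0 → M t' s ≠ 0 → M t t' ≠ 0)
      (hFC : ∀ C : Set S, (∀ s ∈ C, ∀ t ∈ C, M s t ≠ 0) → Finite (restrict M C).Group) :
      Built M
  | convex {S : Type u} [Finite S] (M : CoxeterMatrix S) (T : Set S)
      (h : ∃ _ : LinearOrder (SPH.ArtinGroup M ⧸ parabolic M T), ∀ (g : SPH.ArtinGroup M)
        (x y : SPH.ArtinGroup M ⧸ parabolic M T), x < y → g • x < g • y) :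
      Built (restrict M T) → Built M
  | map {S S' : Type u} [Finite S] (M : CoxeterMatrix S) (M' : CoxeterMatrix S') (f : S → S')
      (hf : ∀ a b : S, M a b ≠ 0 → M' (f a) (f b) = M a b) : Built M' → Built M
  | even {S : Type u} [Finite S] (M : CoxeterMatrix S) (s : S)
      (heven : ∀ z, z ≠ s → Even (M s z))
      (hlocal : ∀ w z, w ≠ s → z ≠ s → w ≠ z → M s w ≠ 0 → M s w ≠ 2 → M s z ≠ 0 → M w z ≠ 0 →
        M s z = 2 ∧ M w z = 2) : Built (delete M s) → Built M
  | glue {S : Type u} [Finite S] (M : CoxeterMatrix S) (T T' : Set S)
      (hcover : ∀ s : S, s ∈ T ∨ s ∈ T')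
      (h : ∀ a ∈ T, ∀ b ∈ T', a ∉ T' → b ∉ T → M a b = 0)
      (hord : ∃ _ : LinearOrder (SPH.ArtinGroup (restrict M (T ∩ T'))),
        ∀ a b c : SPH.ArtinGroup (restrict M (T ∩ T')), a < b → c * a < c * b)
      (ρ : SPH.ArtinGroup M →* SPH.ArtinGroup (restrict M (T ∩ T')))
      (hρ : ∀ s (hs : s ∈ T ∩ T'), ρ (PresentedGroup.of s) = PresentedGroup.of ⟨s, hs⟩) :
      Built (restrict M T) → Built (restrict M T') → Built M
  | free {S S' : Type u} [Finite S] (M : CoxeterMatrix S) (M' : CoxeterMatrix S')
      (φ : SPH.ArtinGroup M →* SPH.ArtinGroup M') (hφ : IsFreeGroup φ.ker) : Built M' → Built M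

/-- The group algebras of the Artin groups of all matrices which can be built in this way have no
zero divisors, over every field. -/
theorem result {S : Type u} (M : CoxeterMatrix S) (hM : Built M) (K : Type v) [Field K]
    (x y : MonoidAlgebra K (SPH.ArtinGroup M)) (hxy : x * y = 0) : x = 0 ∨ y = 0 := by
  have key : NoZeroDivisors (MonoidAlgebra K (SPH.ArtinGroup M)) := by
    clear hxy x y
    induction hM with
    | chordal M horder hFC =>
      exact Pool.Agent.Lib.MP_7b9603_alCF.noZeroDivisors_chordal_univ M horder hFC K
    | convex M T h _ ih =>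
      exact Pool.Agent.Lib.MP_7b9603_alLO.conv_dom M T h K ih
    | map M M' f hf _ ih =>
      exact Pool.Agent.Lib.MP_7b9603_alIL.map_labels M M' f hf K
    | even M s heven hlocal _ ih =>
      exact Pool.Agent.Lib.MP_7b9603_alEV.good_dom
        (Pool.Agent.Lib.MP_7b9603_alEV.even_all M s (delete M s) (fun _ _ => rfl) heven hlocal K) ih
    | glue M T T' hcover h hord ρ hρ _ _ ih ih' =>
      exact Pool.Agent.Lib.MP_7b9603_alLO.glue_retract M T T' hcover h hord ρ hρ K ih ih'
    | free M M' φ hφ _ ih =>
      exact Pool.Agent.Lib.MP_7b9603_alLO.free_ker_dom φ hφ K ih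
  exact mul_eq_zero.mp hxy

end Pool.Agent.Results.MP_7b9603_al.BuiltMatrices
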