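import Pool.Agent.Lib.MP_7b9603_alIL.Map
import Pool.Agent.Lib.MP_7b9603_alEV.F2

/-!
# Group algebras of Artin groups: infinite labels and maps of Coxeter matrices

The Artin group of a Coxeter matrix `M` is `SPH.ArtinGroup M`, the group presented by the
generators `s` and the braid relations `s t s ⋯ = t s t ⋯` (`m_{st}` factors on both sides) for all
`s`, `t` with `m_{st} ≠ ∞`; in Mathlib's Coxeter matrices `M s t = 0` encodes `m_{st} = ∞`.
-/

namespace Pool.Agent.Results.MP_7b9603_al.LabelMaps

universe u v w

/-- The group algebra `K[G]` has no zero divisors. -/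
def NoZD (K : Type w) [Field K] (G : Type v) [Group G] : Prop :=
  ∀ x y : MonoidAlgebra K G, x * y = 0 → x = 0 ∨ y = 0

/-- The subgroup of the Artin group generated by a set of generators. -/
def parabolic {S : Type u} (M : CoxeterMatrix S) (T : Set S) : Subgroup (SPH.ArtinGroup M) :=
  Subgroup.closure (PresentedGroup.of '' T)

/-- The map `f` of the generators preserves all finite labels. (Infinite labels may become finite,
and two generators with infinite label may have the same image.) -/
def PreservesFiniteLabels {S S' : Type u} (M : CoxeterMatrix S) (M' : CoxeterMatrix S')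
    (f : S → S') : Prop :=
  ∀ a b, M a b ≠ 0 → M' (f a) (f b) = M a b

/-- The Coxeter matrix on the generators other than `s`. -/
def delete {S : Type u} (M : CoxeterMatrix S) (s : S) : CoxeterMatrix {x : S // x ≠ s} where
  M := fun a b => M a b
  isSymm := by
    ext a b
    exact M.symmetric b a
  diagonal := fun a => M.diagonal a
  off_diagonal := fun a b h => M.off_diagonal a b (fun h' => h (Subtype.ext h'))

/-- All labels of `s` are even or infinite, and if `w`, `z` are adjacent (finite labels) to `s` and
to each other and the label of `s`, `w` is not `2`, then `z` commutes with `s` and `w`. -/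
def IsEvenGenerator {S : Type u} (M : CoxeterMatrix S) (s : S) : Prop :=
  (∀ z, z ≠ s → Even (M s z)) ∧
    ∀ w z, w ≠ s → z ≠ s → w ≠ z → M s w ≠ 0 → M s w ≠ 2 → M s z ≠ 0 → M w z ≠ 0 →
      M s z = 2 ∧ M w z = 2

private theorem nozd_iff (K : Type w) [Field K] (G : Type v) [Group G] :
    NoZD K G ↔ NoZeroDivisors (MonoidAlgebra K G) := by
  constructor
  · intro h
    exact ⟨fun {x y} hxy => h x y hxy⟩
  · intro h x y hxy
    exact mul_eq_zero.mp hxy

/-- `M` with all infinite labels replaced by `2`. -/
private noncomputable def two {S : Type u} (M : CoxeterMatrix S) : CoxeterMatrix S where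
  M := fun a b => if M a b = 0 then 2 else M a b
  isSymm := by
    refine Matrix.IsSymm.ext fun i j => ?_
    rw [show M j i = M i j from M.symmetric j i]
  diagonal := fun a => by
    rw [show M a a = 1 from M.diagonal a]
    rfl
  off_diagonal := fun a b h => by
    by_cases h0 : M a b = 0
    · rw [if_pos h0]
      decide
    · rw [if_neg h0]
      exact M.off_diagonal a b h

private theorem two_apply {S : Type u} (M : CoxeterMatrix S) (a b : S) :
    two M a b = if M a b = 0 then 2 else M a b := rfl

private theorem ker_of_injOn {G : Type u} {Q : Type v} [Group G] [Group Q] (φ : G →* Q)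
    (H : Subgroup G) (h : Set.InjOn φ H) : ∀ x ∈ H, φ x = 1 → x = 1 := by
  intro x hx h1
  exact h hx H.one_mem (by rw [h1, map_one])

/-- Let `K` be a field.
(1) Let `M` be a Coxeter matrix on `S` with `m_{st} = ∞` and `φ` a homomorphism from the Artin
group of `M` to a group `Q` which is injective on the subgroups generated by `S ∖ {s}` and by
`S ∖ {t}`. If `K[Q]` has no zero divisors, then `K[A_M]` has none.
(2) Let `f` be a map from the generators of `M` (finitely many) to those of `M'` which preserves
all finite labels. If `K[A_{M'}]` has no zero divisors, then `K[A_M]` has none.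
(3) Let `s` be an even generator of `M` (on a finite set `S`). If the group algebra of the Artin
group on the other generators has no zero divisors, then `K[A_M]` has none.
(4) If the group algebras of the Artin groups on the finite set `S` with all labels finite have no
zero divisors, then those of all Artin groups on `S` have none. -/
theorem result (K : Type w) [Field K] :
    (∀ (S : Type u) (M : CoxeterMatrix S) (s t : S) (Q : Type v) [Group Q]
      (φ : SPH.ArtinGroup M →* Q), s ≠ t → M s t = 0 →
      Set.InjOn φ (parabolic M {s}ᶜ) → Set.InjOn φ (parabolic M {t}ᶜ) →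
      NoZD K Q → NoZD K (SPH.ArtinGroup M)) ∧
    (∀ (S S' : Type u) [Finite S] (M : CoxeterMatrix S) (M' : CoxeterMatrix S') (f : S → S'),
      PreservesFiniteLabels M M' f →
      NoZD K (SPH.ArtinGroup M') → NoZD K (SPH.ArtinGroup M)) ∧
    (∀ (S : Type u) [Finite S] (M : CoxeterMatrix S) (s : S), IsEvenGenerator M s →
      NoZD K (SPH.ArtinGroup (delete M s)) → NoZD K (SPH.ArtinGroup M)) ∧
    (∀ (S : Type u) [Finite S],
      (∀ M' : CoxeterMatrix S, (∀ a b, M' a b ≠ 0) → NoZD K (SPH.ArtinGroup M')) →
      ∀ M : CoxeterMatrix S, NoZD K (SPH.ArtinGroup M)) := by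
  refine ⟨?_, ?_, ?_, ?_⟩
  · intro S M s t Q _ φ hst h0 hX hY hQ
    rw [nozd_iff] at hQ ⊢
    exact Pool.Agent.Lib.MP_7b9603_alIL.step_gen M s t hst h0 φ (ker_of_injOn φ _ hX)
      (ker_of_injOn φ _ hY) K
  · intro S S' _ M M' f hf hM'
    rw [nozd_iff] at hM' ⊢
    exact Pool.Agent.Lib.MP_7b9603_alIL.map_labels M M' f hf K
  · intro S _ M s hs hD
    rw [nozd_iff] at hD ⊢
    exact Pool.Agent.Lib.MP_7b9603_alEV.good_dom
      (Pool.Agent.Lib.MP_7b9603_alEV.even_all M s (delete M s) (fun _ _ => rfl) hs.1 hs.2 K) hD
  · intro S _ h M
    have h1 := h (two M) (fun a b => by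
      rw [two_apply]
      by_cases h0 : M a b = 0
      · rw [if_pos h0]
        decide
      · rw [if_neg h0]
        exact h0)
    rw [nozd_iff] at h1 ⊢
    refine Pool.Agent.Lib.MP_7b9603_alIL.all_labels M (two M) (fun a b hab => ?_) K
    rw [two_apply, if_neg hab]

end Pool.Agent.Results.MP_7b9603_al.LabelMaps
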