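import Pool.Agent.Lib.MP_7b9603_alIL.Map
import Pool.Agent.Lib.MP_7b9603_alLO.X7

/-!
# Artin groups whose irreducible spherical parabolic subgroups have rank at most two

The Artin group of a Coxeter matrix `M` is `SPH.ArtinGroup M`, the group presented by the
generators `s` and the braid relations `s t s ⋯ = t s t ⋯` (`m_{st}` factors on both sides) for all
`s`, `t` with `m_{st} ≠ ∞`; in Mathlib's Coxeter matrices `M s t = 0` encodes `m_{st} = ∞`.
-/

namespace Pool.Agent.Results.MP_7b9603_al.RankTwo

universe u v

/-- Among any three generators with pairwise finite labels at least two of the three labels are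
`2`. -/
def TwoOfThree {S : Type u} (M : CoxeterMatrix S) : Prop :=
  ∀ a b c : S, a ≠ b → b ≠ c → a ≠ c → M a b ≠ 0 → M b c ≠ 0 → M a c ≠ 0 →
    (M a b = 2 ∧ M b c = 2) ∨ (M a b = 2 ∧ M a c = 2) ∨ (M b c = 2 ∧ M a c = 2)

/-- Let `M` be a Coxeter matrix on a finite set such that among any three generators with pairwise
finite labels at least two of the three labels are `2`. Then the Artin group of `M` is left
orderable, and the group algebras of the Artin groups of all matrices `M'` on a finite set with a
map of the generators to those of `M` which preserves all finite labels (for example `M' = M`) have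
no zero divisors, over every field. -/
theorem result {S : Type u} [Finite S] (M : CoxeterMatrix S) (hM : TwoOfThree M) :
    (∃ _ : LinearOrder (SPH.ArtinGroup M), ∀ a b c : SPH.ArtinGroup M, a < b → c * a < c * b) ∧
    ∀ (K : Type v) [Field K] (S' : Type u) [Finite S'] (M' : CoxeterMatrix S') (f : S' → S),
      (∀ a b : S', M' a b ≠ 0 → M (f a) (f b) = M' a b) →
      ∀ x y : MonoidAlgebra K (SPH.ArtinGroup M'), x * y = 0 → x = 0 ∨ y = 0 := by
  have h := Pool.Agent.Lib.MP_7b9603_alLO.order_of_two M hM
  refine ⟨h, fun K _ S' _ M' f hf x y hxy => ?_⟩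
  have h1 : NoZeroDivisors (MonoidAlgebra K (SPH.ArtinGroup M)) := by
    obtain ⟨_, hlt⟩ := h
    have : MulLeftStrictMono (SPH.ArtinGroup M) := ⟨fun c a b hab => hlt a b c hab⟩
    infer_instance
  have h2 : NoZeroDivisors (MonoidAlgebra K (SPH.ArtinGroup M')) :=
    Pool.Agent.Lib.MP_7b9603_alIL.map_labels M' M f hf K
  exact mul_eq_zero.mp hxy

end Pool.Agent.Results.MP_7b9603_al.RankTwo
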